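import Pool.Agent.H27.Wnc5

set_option autoImplicit false

namespace Pool.Agent.Results.MP_af3abc_an.NotEquiv

open Pool.Agent.H27.Wnc
open scoped ENNReal NNReal

/-- For a nonseparable complex Hilbert space `H`, the De Blasi measure is not dominated by a
multiple of `wk` on bounded subsets of the space of compact operators on `H`. -/
theorem result (H : Type) [NormedAddCommGroup H] [InnerProductSpace ℂ H] [CompleteSpace H]
    (hH : ¬ TopologicalSpace.SeparableSpace H) (c : ℝ≥0) :
    ∃ A : Set (compactOperator (RingHom.id ℂ) H H), Bornology.IsBounded A ∧ A.Nonempty ∧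
      (c : ℝ≥0∞) * wk A < omega A :=
  kh' hH c

end Pool.Agent.Results.MP_af3abc_an.NotEquiv
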